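import Pool.Agent.H61.HB.Stmts

/-! Project HB, row REA: the nonlinear term of a real field is real. -/

set_option autoImplicit false

namespace HB

theorem co_neg' (i : Fin 2) (k : Z2) : co i (-k) = - co i k := by
  unfold co
  by_cases h : i = 0
  · rw [if_pos h, if_pos h]; simp
  · rw [if_neg h, if_neg h]; simp

theorem rea_thm : REAStmt := by
  intro u _ hr j k
  have hterm : ∀ l : Z2, trm u (u j) (-k) (-l) = (starRingEnd ℂ) (trm u (u j) k l) := by
    intro l
    unfold trm
    rw [map_sum]
    refine Finset.sum_congr rfl fun i _ => ?_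
    have h1 : (-k - -l : Z2) = -(k - l) := by abel
    rw [h1, hr i l, hr j (k - l), co_neg' i (k - l), map_mul, map_mul, map_mul, Complex.conj_I,
      Complex.conj_ofReal]
    push_cast
    ring
  change (∑' l : Z2, trm u (u j) (-k) l) = (starRingEnd ℂ) (∑' l : Z2, trm u (u j) k l)
  rw [← (Equiv.neg Z2).tsum_eq (fun l => trm u (u j) (-k) l)]
  have h2 : (starRingEnd ℂ) (∑' l : Z2, trm u (u j) k l) =
      ∑' l : Z2, (starRingEnd ℂ) (trm u (u j) k l) := by
    exact tsum_star
  rw [h2]
  refine tsum_congr fun l => ?_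
  exact hterm l

end HB
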