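import Pool.Agent.H61.HB.Stmts

/-! Project HB, row TRA: the nonlinear term of a triangular field is triangular. -/

set_option autoImplicit false

namespace HB

theorem tra_thm (hB : BILStmt) : TRAStmt := by
  intro m u hm hu ht k
  obtain ⟨C, _, hC⟩ := hB 2 le_rfl
  have hs0 : Summable fun l => trm u (u 0) k l := ((hC u (u 0) hu (hu 0)).1 k).of_norm
  have hs1 : Summable fun l => trm u (u 1) k l := ((hC u (u 1) hu (hu 1)).1 k).of_norm
  by_cases hk : (m.1 * k.2 - m.2 * k.1 : ℝ) = 0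
  · rw [hk]; simp
  have hmm : (m.1 : ℝ) ^ 2 + m.2 ^ 2 ≠ 0 := by
    intro h0
    apply hm
    have h1 : m.1 = 0 := by nlinarith [sq_nonneg m.1, sq_nonneg m.2]
    have h2 : m.2 = 0 := by nlinarith [sq_nonneg m.1, sq_nonneg m.2]
    exact Prod.ext h1 h2
  have hterm : ∀ l : Z2, (m.1 : ℂ) * trm u (u 0) k l + (m.2 : ℂ) * trm u (u 1) k l = 0 := by
    intro l
    have hfac : (m.1 : ℂ) * trm u (u 0) k l + (m.2 : ℂ) * trm u (u 1) k l =
        Complex.I * (u 0 l * ((k - l).1 : ℂ) + u 1 l * ((k - l).2 : ℂ)) *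
          ((m.1 : ℂ) * u 0 (k - l) + (m.2 : ℂ) * u 1 (k - l)) := by
      unfold trm co
      rw [Fin.sum_univ_two, Fin.sum_univ_two]
      rw [if_pos rfl, if_neg (by decide : ¬ ((1 : Fin 2) = 0))]
      push_cast
      ring
    rw [hfac]
    by_cases hp : (m.1 * (k - l).2 - m.2 * (k - l).1 : ℝ) = 0
    · -- `m × p = 0`, so `m × l ≠ 0`
      have hl : (m.1 * l.2 - m.2 * l.1 : ℝ) ≠ 0 := by
        intro h0
        apply hk
        have e1 : (((k - l).1 : ℤ) : ℝ) = (k.1 : ℝ) - l.1 := by push_cast [Prod.fst_sub]; ring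
        have e2 : (((k - l).2 : ℤ) : ℝ) = (k.2 : ℝ) - l.2 := by push_cast [Prod.snd_sub]; ring
        rw [e1, e2] at hp
        linarith
      have hul : (m.1 : ℂ) * u 0 l + (m.2 : ℂ) * u 1 l = 0 := by
        rcases mul_eq_zero.mp (ht l) with h | h
        · exact absurd (Complex.ofReal_eq_zero.mp h) hl
        · exact h
      have hpc : (m.1 : ℂ) * ((k - l).2 : ℂ) - (m.2 : ℂ) * ((k - l).1 : ℂ) = 0 := by
        have := congrArg (fun x : ℝ => (x : ℂ)) hp
        push_cast at this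
        simpa using this
      have hmc : ((m.1 : ℂ) ^ 2 + (m.2 : ℂ) ^ 2) ≠ 0 := by
        intro h0
        apply hmm
        have : (((m.1 : ℝ) ^ 2 + m.2 ^ 2 : ℝ) : ℂ) = 0 := by push_cast; exact h0
        exact Complex.ofReal_eq_zero.mp this
      have hz : u 0 l * ((k - l).1 : ℂ) + u 1 l * ((k - l).2 : ℂ) = 0 := by
        have h3 : ((m.1 : ℂ) ^ 2 + (m.2 : ℂ) ^ 2) *
            (u 0 l * ((k - l).1 : ℂ) + u 1 l * ((k - l).2 : ℂ)) = 0 := by
          have h4 : ((m.1 : ℂ) ^ 2 + (m.2 : ℂ) ^ 2) *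
            (u 0 l * ((k - l).1 : ℂ) + u 1 l * ((k - l).2 : ℂ)) =
            ((m.1 : ℂ) * ((k - l).1 : ℂ) + (m.2 : ℂ) * ((k - l).2 : ℂ)) *
              ((m.1 : ℂ) * u 0 l + (m.2 : ℂ) * u 1 l) +
            ((m.1 : ℂ) * ((k - l).2 : ℂ) - (m.2 : ℂ) * ((k - l).1 : ℂ)) *
              ((m.1 : ℂ) * u 1 l - (m.2 : ℂ) * u 0 l) := by ring
          rw [h4, hul, hpc]
          ring
        rcases mul_eq_zero.mp h3 with h | h
        · exact absurd h hmc
        · exact h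
      rw [hz]
      ring
    · have hup : (m.1 : ℂ) * u 0 (k - l) + (m.2 : ℂ) * u 1 (k - l) = 0 := by
        rcases mul_eq_zero.mp (ht (k - l)) with h | h
        · exact absurd (Complex.ofReal_eq_zero.mp h) hp
        · exact h
      rw [hup]
      ring
  have hsum : (m.1 : ℂ) * adv u u 0 k + (m.2 : ℂ) * adv u u 1 k = 0 := by
    change (m.1 : ℂ) * (∑' l : Z2, trm u (u 0) k l) + (m.2 : ℂ) * (∑' l : Z2, trm u (u 1) k l) = 0
    rw [← tsum_mul_left, ← tsum_mul_left, ← (hs0.mul_left _).tsum_add (hs1.mul_left _)]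
    rw [tsum_congr hterm]
    exact tsum_zero
  rw [hsum, mul_zero]

end HB
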